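import Pool.Agent.TH133.Defs

/-!
# Prime adequate equivalence relations: definitions
-/

open CategoryTheory AlgebraicGeometry

universe u v w

namespace Pool.Agent.TH829.Prime

open Pool.Agent.H914 Pool.Agent.H914.VarClass Pool.Agent.H914.VarClass.Obj Pool.Agent.W492.BB
  Pool.Agent.W550.Corr Pool.Agent.TH133

variable {k : Type u} [Field k] {𝒱 : VarClass k}

/-- A family of subspaces `I X i` of the groups `A^i(X)`, for all varieties `X` and all `i`. -/
abbrev Family (C : TheoryData.{u, v, 0} 𝒱 ℚ) : Type _ := ∀ X : 𝒱.Obj, ℤ → Submodule ℚ (C.A X)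

/-- The family `I` is an adequate equivalence relation: `I X i` consists of classes of codimension
`i` (those equivalent to zero), and the family is stable under pull-backs, push-forwards and
intersection products with arbitrary classes. -/
structure IsAdequate (C : TheoryData.{u, v, 0} 𝒱 ℚ) (I : Family C) : Prop where
  le_gr : ∀ X i, I X i ≤ C.gr X i
  pull_mem : ∀ {X Y : 𝒱.Obj} (f : X ⟶ Y) {i : ℤ} {b : C.A Y}, b ∈ I Y i → C.up f b ∈ I X i
  push_mem : ∀ {X Y : 𝒱.Obj} (f : X ⟶ Y) {i : ℤ} {a : C.A X}, a ∈ I X i →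
    C.down f a ∈ I Y (i + ((Y.dim : ℤ) - X.dim))
  mul_mem : ∀ {X : 𝒱.Obj} {i j : ℤ} {a b : C.A X}, a ∈ I X i → C.Deg j b →
    C.mul a b ∈ I X (i + j)

/-- The adequate equivalence relation `P` is prime: no fundamental class is equivalent to zero, and
an external product `x × y` is equivalent to zero only if `x` or `y` is. -/
structure IsPrime (C : TheoryData.{u, v, 0} 𝒱 ℚ) (P : Family C) : Prop extends
    IsAdequate C P where
  one_notMem : ∀ X : 𝒱.Obj, (1 : C.A X) ∉ P X 0
  prime : ∀ {X Y : 𝒱.Obj} {i j : ℤ} {x : C.A X} {y : C.A Y}, C.Deg i x → C.Deg j y →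
    C.ext x y ∈ P (X.prod Y) (i + j) → x ∈ P X i ∨ y ∈ P Y j

/-- The power `X^(m+1) = X × (X × ⋯ × X)` with `m + 1` factors. -/
noncomputable def powObj (X : 𝒱.Obj) : ℕ → 𝒱.Obj
  | 0 => X
  | m + 1 => X.prod (powObj X m)

/-- The exterior product `a × a × ⋯ × a` with `m + 1` factors, a class on `X^(m+1)`. -/
noncomputable def extPow (C : TheoryData.{u, v, 0} 𝒱 ℚ) {X : 𝒱.Obj} (a : C.A X) :
    ∀ m : ℕ, C.A (powObj X m)
  | 0 => a
  | m + 1 => C.ext a (extPow C a m)

/-- The class `a` is smash-nilpotent: some exterior power `a × a × ⋯ × a` vanishes. -/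
def SmashNilpotent (C : TheoryData.{u, v, 0} 𝒱 ℚ) {X : 𝒱.Obj} (a : C.A X) : Prop :=
  ∃ m : ℕ, extPow C a m = 0

/-- The class `a` of codimension `i` on `X` is numerically trivial: the degree of `a b` is zero for
all classes `b` of codimension `dim X - i`. -/
def NumTrivial (C : TheoryData.{u, v, 0} 𝒱 ℚ) {X : 𝒱.Obj} (i : ℤ) (a : C.A X) : Prop :=
  ∀ b : C.A X, C.Deg ((X.dim : ℤ) - i) b → HasDegree C (C.mul a b) 0

lemma HasDegree.add {C : TheoryData.{u, v, 0} 𝒱 ℚ} {X : 𝒱.Obj} {x y : C.A X} {q r : ℚ}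
    (hx : HasDegree C x q) (hy : HasDegree C y r) : HasDegree C (x + y) (q + r) := by
  intro Y
  rw [map_add, map_add, map_add, map_add, (hx Y).1, (hx Y).2, (hy Y).1, (hy Y).2, ← add_smul]
  exact ⟨rfl, rfl⟩

lemma HasDegree.smul {C : TheoryData.{u, v, 0} 𝒱 ℚ} {X : 𝒱.Obj} {x : C.A X} {q : ℚ} (r : ℚ)
    (hx : HasDegree C x q) : HasDegree C (r • x) (r * q) := by
  intro Y
  rw [map_smul, map_smul, map_smul, map_smul, (hx Y).1, (hx Y).2, ← mul_smul]
  exact ⟨rfl, rfl⟩

/-- Numerical equivalence: the numerically trivial classes of codimension `i` on `X`. -/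
def numFam (C : TheoryData.{u, v, 0} 𝒱 ℚ) : Family C := fun X i =>
  { carrier := {a | C.Deg i a ∧ NumTrivial C i a}
    zero_mem' := by
      refine ⟨Submodule.zero_mem _, fun b _ Y => ?_⟩
      rw [TheoryData.mul, zero_mul, map_zero, map_zero, map_zero, map_zero, zero_smul]
      exact ⟨rfl, rfl⟩
    add_mem' := by
      rintro a b ⟨h1, h2⟩ ⟨h3, h4⟩
      refine ⟨Submodule.add_mem _ h1 h3, fun c hc => ?_⟩
      have h5 := HasDegree.add (h2 c hc) (h4 c hc)
      rw [add_zero, TheoryData.mul, TheoryData.mul, ← add_mul] at h5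
      exact h5
    smul_mem' := by
      rintro q a ⟨h1, h2⟩
      refine ⟨Submodule.smul_mem _ q h1, fun c hc => ?_⟩
      have h5 := HasDegree.smul q (h2 c hc)
      rw [mul_zero, TheoryData.mul, ← smul_mul_assoc] at h5
      exact h5 }

lemma mem_numFam {C : TheoryData.{u, v, 0} 𝒱 ℚ} {X : 𝒱.Obj} {i : ℤ} {a : C.A X} :
    a ∈ numFam C X i ↔ C.Deg i a ∧ NumTrivial C i a := Iff.rfl

end Pool.Agent.TH829.Prime
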