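import Pool.Agent.TH829.Prime.Theory

/-!
# Numerical equivalence and prime adequate relations
-/

open CategoryTheory AlgebraicGeometry

universe u v w

namespace Pool.Agent.TH829.Prime

open Pool.Agent.H914 Pool.Agent.H914.VarClass Pool.Agent.H914.VarClass.Obj Pool.Agent.W492.BB
  Pool.Agent.W550.Corr Pool.Agent.TH133

set_option linter.unusedSectionVars false

variable {k : Type u} [Field k] {𝒱 : VarClass k}

section chow

variable {C : TheoryData.{u, v, 0} 𝒱 ℚ} [hC : IsChowProj C] {X Y Z W : 𝒱.Obj}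

include hC

/-- The degree of an external product. -/
lemma hasDegree_ext {u : C.A X} {v : C.A Y} {q r : ℚ} (hu : HasDegree C u q)
    (hv : HasDegree C v r) : HasDegree C (C.ext u v) (q * r) := by
  intro W
  constructor
  · have e1 : snd (X.prod Y) W = t23 X Y W ≫ snd Y W := by simp
    have e2 : fst (X.prod Y) W ≫ snd X Y = t23 X Y W ≫ fst Y W := by simp
    rw [e1, C.push_comp, TheoryData.ext, map_mul, ← C.pull_comp (fst (X.prod Y) W) (snd X Y), e2,
      C.pull_comp (t23 X Y W), C.proj_right]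
    have h1 : C.push (t23 X Y W) (C.pull (fst (X.prod Y) W) (C.pull (fst X Y) u)) =
        q • (1 : C.A (Y.prod W)) := by
      change C.push (prodMap (snd X Y) (𝟙 W)) _ = _
      rw [← C.base_fst, (hu Y).1, map_smul, map_one]
    rw [h1, smul_mul_assoc, one_mul, map_smul, (hv W).1, ← mul_smul]
  · have e1 : fst W (X.prod Y) = u12 W X Y ≫ fst W X := by simp
    have e2 : snd W (X.prod Y) ≫ fst X Y = u12 W X Y ≫ snd W X := by simp
    rw [e1, C.push_comp, TheoryData.ext, map_mul, ← C.pull_comp (snd W (X.prod Y)) (fst X Y), e2,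
      C.pull_comp (u12 W X Y), C.proj_left]
    have h1 : C.push (u12 W X Y) (C.pull (snd W (X.prod Y)) (C.pull (snd X Y) v)) =
        r • (1 : C.A (W.prod X)) := by
      change C.push (prodMap (𝟙 W) (fst X Y)) _ = _
      rw [← C.base_snd, (hv X).2, map_smul, map_one]
    rw [h1, mul_smul_comm, mul_one, map_smul, (hu W).2, ← mul_smul, mul_comm r q]

/-- The degree of a push-forward. -/
lemma hasDegree_push (f : X ⟶ Y) {u : C.A X} {q : ℚ} (hu : HasDegree C u q) :
    HasDegree C (C.push f u) q := by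
  intro W
  constructor
  · have e : prodMap f (𝟙 W) ≫ snd Y W = snd X W := by simp
    rw [C.base_fst, ← C.push_comp, e, (hu W).1]
  · have e : prodMap (𝟙 W) f ≫ fst W Y = fst W X := by simp
    rw [C.base_snd, ← C.push_comp, e, (hu W).2]

omit hC in
lemma hasDegree_uniq (hne : (1 : C.A Y) ≠ 0) {x : C.A X} {q r : ℚ} (hq : HasDegree C x q)
    (hr : HasDegree C x r) : q = r := by
  have h1 := (hq Y).1
  rw [(hr Y).1] at h1
  by_contra hqr
  apply hne
  have h5 : (q - r) • (1 : C.A Y) = 0 := by rw [sub_smul, h1, sub_self]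
  rw [← one_smul ℚ (1 : C.A Y), ← inv_mul_cancel₀ (sub_ne_zero.2 hqr), mul_smul, h5, smul_zero]

/-- Adequate relations other than the trivial one are finer than numerical equivalence. -/
lemma IsAdequate.le_numFam {P : Family C} (hP : IsAdequate C P)
    (h1 : ∀ X : 𝒱.Obj, (1 : C.A X) ∉ P X 0) : P ≤ numFam C := by
  intro X i a ha
  refine mem_numFam.2 ⟨hP.le_gr X i ha, fun b hb => ?_⟩
  have hab : C.mul a b ∈ P X X.dim := hP.congr (by ring) (hP.mul_mem ha hb)
  obtain ⟨q, hq⟩ := exists_hasDegree (hP.le_gr _ _ hab)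
  by_cases hq0 : q = 0
  · rw [hq0] at hq
    exact hq
  · exfalso
    apply h1 X
    have h2 := hP.push_mem (snd X X) (hP.pull_mem (fst X X) hab)
    rw [TheoryData.down, TheoryData.up, (hq X).1] at h2
    have h3 := Submodule.smul_mem _ q⁻¹ h2
    rw [← mul_smul, inv_mul_cancel₀ hq0, one_smul] at h3
    refine hP.congr ?_ h3
    rw [dim_prod]; push_cast; ring

/-- Numerical equivalence is an adequate relation. -/
lemma isAdequate_numFam (hne : ∀ X : 𝒱.Obj, (1 : C.A X) ≠ 0) : IsAdequate C (numFam C) where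
  le_gr X i a ha := ha.1
  pull_mem {X Y} f i a ha := by
    refine ⟨C.pull_mem f ha.1, fun b hb => ?_⟩
    have h1 : C.mul (C.up f a) b ∈ C.gr X X.dim := by
      have h2 := C.mul_mem (C.pull_mem f ha.1) hb
      rwa [add_sub_cancel] at h2
    obtain ⟨q, hq⟩ := exists_hasDegree h1
    have h3 := hasDegree_push f hq
    rw [TheoryData.mul, TheoryData.up, C.proj_left] at h3
    have h4 : C.Deg ((Y.dim : ℤ) - i) (C.push f b) := by
      have h5 := C.push_mem f hb
      have e : (X.dim : ℤ) - i + 1 * ((Y.dim : ℤ) - X.dim) = Y.dim - i := by ring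
      rwa [e] at h5
    have h6 := hasDegree_uniq (hne X) h3 (ha.2 _ h4)
    rwa [h6] at hq
  push_mem {X Y} f i a ha := by
    refine ⟨?_, fun b hb => ?_⟩
    · have h5 := C.push_mem f ha.1
      rwa [one_mul] at h5
    · have e : (Y.dim : ℤ) - (i + ((Y.dim : ℤ) - X.dim)) = X.dim - i := by ring
      rw [e] at hb
      have h1 := hasDegree_push f (ha.2 _ (C.pull_mem f hb))
      rw [TheoryData.mul, C.proj_right] at h1
      exact h1
  mul_mem {X i j a b} ha hb := by
    refine ⟨C.mul_mem ha.1 hb, fun c hc => ?_⟩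
    have h1 : C.Deg ((X.dim : ℤ) - i) (b * c) := by
      have h2 := C.mul_mem hb hc
      have e : j + ((X.dim : ℤ) - (i + j)) = X.dim - i := by ring
      rwa [e] at h2
    have h3 := ha.2 _ h1
    rw [TheoryData.mul, ← mul_assoc] at h3
    exact h3

lemma exists_of_notMem_numFam {X : 𝒱.Obj} {i : ℤ} {a : C.A X} (ha : C.Deg i a)
    (h : a ∉ numFam C X i) : ∃ b : C.A X, C.Deg ((X.dim : ℤ) - i) b ∧ ∃ q : ℚ, q ≠ 0 ∧
      HasDegree C (a * b) q := by
  by_contra hcon
  push Not at hcon
  apply h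
  refine ⟨ha, fun b hb => ?_⟩
  have h1 : a * b ∈ C.gr X X.dim := by
    have h2 := C.mul_mem ha hb
    rwa [add_sub_cancel] at h2
  obtain ⟨q, hq⟩ := exists_hasDegree h1
  by_cases hq0 : q = 0
  · rw [hq0] at hq
    exact hq
  · exact absurd hq (hcon b hb q hq0)

/-- The external product commutes with the intersection product. -/
lemma ext_mul_ext (x b : C.A X) (y c : C.A Y) :
    C.ext x y * C.ext b c = C.ext (x * b) (y * c) := by
  rw [TheoryData.ext, TheoryData.ext, TheoryData.ext, map_mul, map_mul, mul_assoc, mul_assoc,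
    ← mul_assoc (C.pull (snd X Y) y), ← mul_assoc (C.pull (fst X Y) b),
    ch_comm C (C.pull (snd X Y) y)]

/-- Numerical equivalence is a prime adequate relation. -/
lemma isPrime_numFam (hne : ∀ X : 𝒱.Obj, (1 : C.A X) ≠ 0) : IsPrime C (numFam C) := by
  refine { isAdequate_numFam hne with one_notMem := ?_, prime := ?_ }
  · intro X h
    obtain ⟨a, ha, h1, h2⟩ := hC.exists_deg_one X
    have h3 := h.2 a (by rw [sub_zero]; exact ha)
    rw [TheoryData.mul, one_mul] at h3
    have h4 : HasDegree C a 1 := fun Y => by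
      rw [one_smul]
      exact ⟨h2 Y, h1 Y⟩
    exact one_ne_zero (hasDegree_uniq (hne X) h4 h3)
  · intro X Y i j x y hx hy h
    by_contra hcon
    push Not at hcon
    obtain ⟨b, hb, q, hq0, hq⟩ := exists_of_notMem_numFam hx hcon.1
    obtain ⟨c, hc, r, hr0, hr⟩ := exists_of_notMem_numFam hy hcon.2
    have h1 := hasDegree_ext hq hr
    rw [← ext_mul_ext] at h1
    have h2 : C.Deg (((X.prod Y).dim : ℤ) - (i + j)) (C.ext b c) := by
      have h3 := ext_mem' hb hc
      have e : (X.dim : ℤ) - i + ((Y.dim : ℤ) - j) = ((X.prod Y).dim : ℤ) - (i + j) := by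
        rw [dim_prod]; push_cast; ring
      rwa [e] at h3
    have h3 := hasDegree_uniq (hne X) h1 (h.2 _ h2)
    exact mul_ne_zero hq0 hr0 h3

/-- The conjecture of Voevodsky for `X`: numerically trivial classes on `X` are smash-nilpotent. -/
def VoevodskyFor (C : TheoryData.{u, v, 0} 𝒱 ℚ) (X : 𝒱.Obj) : Prop :=
  ∀ (i : ℤ) (a : C.A X), C.Deg i a → NumTrivial C i a → SmashNilpotent C a

theorem voevodskyFor_iff (X : 𝒱.Obj) :
    VoevodskyFor C X ↔ ∀ P : Family C, IsPrime C P → ∀ i, P X i = numFam C X i := by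
  constructor
  · intro h P hP i
    apply le_antisymm (hP.toIsAdequate.le_numFam hP.one_notMem X i)
    intro a ha
    exact (smashNilpotent_iff ha.1).1 (h i a ha.1 ha.2) P hP
  · intro h i a ha ha'
    apply (smashNilpotent_iff ha).2
    intro P hP
    rw [h P hP i]
    exact ⟨ha, ha'⟩

end chow

end Pool.Agent.TH829.Prime
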