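import Pool.Agent.TH829.Prime.Defs
import Pool.Agent.TH133.Ext

/-!
# Prime adequate equivalence relations: smash-nilpotence
-/

open CategoryTheory AlgebraicGeometry

universe u v w

namespace Pool.Agent.TH829.Prime

open Pool.Agent.H914 Pool.Agent.H914.VarClass Pool.Agent.H914.VarClass.Obj Pool.Agent.W492.BB
  Pool.Agent.W550.Corr Pool.Agent.TH133

set_option linter.unusedSectionVars false

variable {k : Type u} [Field k] {𝒱 : VarClass k}

section chow

variable {C : TheoryData.{u, v, 0} 𝒱 ℚ} [hC : IsChowProj C] {X Y Z W : 𝒱.Obj}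

include hC

/-- The external product with `x` as a linear map. -/
noncomputable def extLin (x : C.A X) (Y : 𝒱.Obj) : C.A Y →ₗ[ℚ] C.A (X.prod Y) :=
  LinearMap.mulLeft ℚ (C.pull (fst X Y) x) ∘ₗ (C.pull (snd X Y)).toLinearMap

lemma extLin_apply (x : C.A X) (y : C.A Y) : extLin x Y y = C.ext x y := rfl

lemma ext_add_right (x : C.A X) (y z : C.A Y) : C.ext x (y + z) = C.ext x y + C.ext x z :=
  map_add (extLin x Y) y z

lemma ext_smul_right (q : ℚ) (x : C.A X) (y : C.A Y) : C.ext x (q • y) = q • C.ext x y :=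
  map_smul (extLin x Y) q y

lemma ext_sum_right {ι : Type*} (s : Finset ι) (x : C.A X) (y : ι → C.A Y) :
    C.ext x (∑ i ∈ s, y i) = ∑ i ∈ s, C.ext x (y i) := map_sum (extLin x Y) y s

lemma sw_ext (x : C.A X) (y : C.A Y) : C.pull (sw Y X) (C.ext x y) = C.ext y x := tp_ext x y

/-- Associativity of the external product. -/
lemma aJ_ext (x : C.A X) (y : C.A Y) (z : C.A Z) :
    C.pull (aJ X Y Z) (C.ext (C.ext x y) z) = C.ext x (C.ext y z) := by
  have e1 : aJ X Y Z ≫ fst (X.prod Y) Z ≫ fst X Y = fst X (Y.prod Z) := by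
    simp [aJ]
  have e2 : aJ X Y Z ≫ fst (X.prod Y) Z ≫ snd X Y = snd X (Y.prod Z) ≫ fst Y Z := by
    simp [aJ]
  have e3 : aJ X Y Z ≫ snd (X.prod Y) Z = snd X (Y.prod Z) ≫ snd Y Z := by
    simp [aJ]
  simp only [TheoryData.ext, map_mul]
  rw [← C.pull_comp, ← C.pull_comp, ← C.pull_comp, ← C.pull_comp, ← C.pull_comp, ← C.pull_comp,
    ← C.pull_comp, Category.assoc, Category.assoc, e1, e2, e3, mul_assoc]

lemma aI_ext (x : C.A X) (y : C.A Y) (z : C.A Z) :
    C.pull (aI X Y Z) (C.ext x (C.ext y z)) = C.ext (C.ext x y) z := by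
  rw [← aJ_ext, ← C.pull_comp, aI_aJ, C.pull_id]

/-- The product of two exterior powers of `a` is, up to the associativity isomorphisms, an exterior
power of `a`. -/
lemma exists_pull_extPow (a : C.A X) (m n : ℕ) : ∃ g : powObj X (m + n + 1) ⟶
    (powObj X m).prod (powObj X n),
    C.pull g (C.ext (extPow C a m) (extPow C a n)) = extPow C a (m + n + 1) := by
  induction m with
  | zero =>
    rw [Nat.zero_add]
    exact ⟨𝟙 _, C.pull_id _⟩
  | succ m ih =>
    obtain ⟨g, hg⟩ := ih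
    have e : m + 1 + n + 1 = (m + n + 1) + 1 := by ring
    rw [e]
    have h : C.pull (prodMap (𝟙 X) g ≫ aJ X (powObj X m) (powObj X n))
      (C.ext (C.ext a (extPow C a m)) (extPow C a n)) = C.ext a (extPow C a (m + n + 1)) := by
      rw [C.pull_comp, aJ_ext, pull_ext C, C.pull_id, hg]
    exact ⟨prodMap (𝟙 X) g ≫ aJ X (powObj X m) (powObj X n), h⟩

lemma extPow_mem {a : C.A X} {i : ℤ} (ha : C.Deg i a) (m : ℕ) :
    extPow C a m ∈ C.gr (powObj X m) ((m + 1 : ℕ) * i) := by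
  induction m with
  | zero =>
    have e : ((0 + 1 : ℕ) : ℤ) * i = i := by push_cast; ring
    rw [e]
    exact ha
  | succ m ih =>
    have e : ((m + 1 + 1 : ℕ) : ℤ) * i = i + (m + 1 : ℕ) * i := by push_cast; ring
    rw [e]
    exact ext_mem' ha ih

/-! ### Adequate relations -/

lemma IsAdequate.congr {I : Family C} (_ : IsAdequate C I) {i j : ℤ} (h : i = j) {a : C.A X}
    (ha : a ∈ I X i) : a ∈ I X j := h ▸ ha

lemma IsAdequate.mul_mem' {I : Family C} (hI : IsAdequate C I) {i j : ℤ} {a b : C.A X}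
    (ha : C.Deg i a) (hb : b ∈ I X j) : a * b ∈ I X (i + j) := by
  rw [ch_comm C, add_comm]
  exact hI.mul_mem hb ha

lemma IsAdequate.ext_mem_left {I : Family C} (hI : IsAdequate C I) {i j : ℤ} {x : C.A X}
    {y : C.A Y} (hx : x ∈ I X i) (hy : C.Deg j y) : C.ext x y ∈ I (X.prod Y) (i + j) :=
  hI.mul_mem (hI.pull_mem _ hx) (C.pull_mem _ hy)

lemma IsAdequate.ext_mem_right {I : Family C} (hI : IsAdequate C I) {i j : ℤ} {x : C.A X}
    {y : C.A Y} (hx : C.Deg i x) (hy : y ∈ I Y j) : C.ext x y ∈ I (X.prod Y) (i + j) :=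
  hI.mul_mem' (C.pull_mem _ hx) (hI.pull_mem _ hy)

/-- The smallest adequate relation (rational equivalence). -/
lemma isAdequate_bot : IsAdequate C (fun _ _ => ⊥) where
  le_gr X i := bot_le
  pull_mem f i b hb := by
    rw [Submodule.mem_bot] at hb ⊢
    rw [hb, TheoryData.up, map_zero]
  push_mem f i a ha := by
    rw [Submodule.mem_bot] at ha ⊢
    rw [ha, TheoryData.down, map_zero]
  mul_mem {X i j a b} ha hb := by
    rw [Submodule.mem_bot] at ha ⊢
    rw [ha, TheoryData.mul, zero_mul]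

/-- If one fundamental class is equivalent to zero then all are. -/
lemma IsAdequate.one_mem_of {I : Family C} (hI : IsAdequate C I) {X : 𝒱.Obj}
    (h : (1 : C.A X) ∈ I X 0) (Z : 𝒱.Obj) : (1 : C.A Z) ∈ I Z 0 := by
  obtain ⟨a, ha, h1, h2⟩ := hC.exists_deg_one X
  have h3 : C.pull (snd Z X) 1 ∈ I (Z.prod X) 0 := hI.pull_mem (snd Z X) h
  have h4 := hI.mul_mem h3 (C.pull_mem (snd Z X) ha)
  have h5 := hI.push_mem (fst Z X) h4
  have e : 0 + (X.dim : ℤ) + ((Z.dim : ℤ) - ((Z.prod X).dim : ℤ)) = 0 := by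
    rw [dim_prod]; push_cast; ring
  rw [e, TheoryData.mul, map_one, one_mul] at h5
  have h6 := h1 Z
  rw [TheoryData.down, TheoryData.up] at h6
  rw [TheoryData.down, h6] at h5
  exact h5

lemma IsAdequate.eq_top_of {I : Family C} (hI : IsAdequate C I) {X : 𝒱.Obj}
    (h : (1 : C.A X) ∈ I X 0) {Z : 𝒱.Obj} {i : ℤ} {z : C.A Z} (hz : C.Deg i z) : z ∈ I Z i := by
  have h1 := hI.mul_mem (hI.one_mem_of h Z) hz
  rw [TheoryData.mul, one_mul, zero_add] at h1
  exact h1

/-- The relation `(I : x)`: the classes `z` with `x × z` in `I`. -/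
noncomputable def colon (I : Family C) {X : 𝒱.Obj} (x : C.A X) (i : ℤ) : Family C :=
  fun Y j => C.gr Y j ⊓ (I (X.prod Y) (i + j)).comap (extLin x Y)

lemma mem_colon {I : Family C} {x : C.A X} {i j : ℤ} {y : C.A Y} :
    y ∈ colon I x i Y j ↔ C.Deg j y ∧ C.ext x y ∈ I (X.prod Y) (i + j) := Iff.rfl

lemma IsAdequate.colon {I : Family C} (hI : IsAdequate C I) {x : C.A X} {i : ℤ} :
    IsAdequate C (colon I x i) where
  le_gr Y j y hy := (mem_colon.1 hy).1
  pull_mem {Y Z} f j z hz := by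
    obtain ⟨h1, h2⟩ := mem_colon.1 hz
    refine mem_colon.2 ⟨C.pull_mem f h1, ?_⟩
    have h3 := hI.pull_mem (prodMap (𝟙 X) f) h2
    rw [TheoryData.up, pull_ext C, C.pull_id] at h3
    exact h3
  push_mem {Y Z} f j z hz := by
    obtain ⟨h1, h2⟩ := mem_colon.1 hz
    refine mem_colon.2 ⟨?_, ?_⟩
    · have h4 := C.push_mem f h1
      rwa [one_mul] at h4
    · have h3 := hI.push_mem (prodMap (𝟙 X) f) h2
      rw [TheoryData.down, push_ext C, C.push_id] at h3
      refine hI.congr ?_ h3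
      rw [dim_prod, dim_prod]; push_cast; ring
  mul_mem {Y j l a b} ha hb := by
    obtain ⟨h1, h2⟩ := mem_colon.1 ha
    refine mem_colon.2 ⟨C.mul_mem h1 hb, ?_⟩
    have h3 := hI.mul_mem h2 (C.pull_mem (snd X Y) hb)
    rw [TheoryData.mul, TheoryData.ext, mul_assoc, ← map_mul] at h3
    exact hI.congr (by ring) h3

lemma IsAdequate.le_colon {I : Family C} (hI : IsAdequate C I) {x : C.A X} {i : ℤ}
    (hx : C.Deg i x) : I ≤ Prime.colon I x i := by
  intro Y j y hy
  exact mem_colon.2 ⟨hI.le_gr Y j hy, hI.ext_mem_right hx hy⟩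

lemma IsAdequate.swap_mem {I : Family C} (hI : IsAdequate C I) {x : C.A X} {y : C.A Y} {i j : ℤ}
    (h : C.ext x y ∈ I (X.prod Y) (i + j)) : C.ext y x ∈ I (Y.prod X) (j + i) := by
  have h1 := hI.pull_mem (sw Y X) h
  rw [TheoryData.up, sw_ext] at h1
  exact hI.congr (add_comm _ _) h1

omit hC in
/-- The union of a chain of families. -/
lemma mem_sSup_chain {c : Set (Family C)} (hc : IsChain (· ≤ ·) c) (hne : c.Nonempty)
    {X : 𝒱.Obj} {i : ℤ} {a : C.A X} : a ∈ (sSup c) X i ↔ ∃ I ∈ c, a ∈ I X i := by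
  have e : (sSup c) X i = ⨆ I : c, (I : Family C) X i := by
    rw [sSup_apply, iSup_apply]
  rw [e]
  have : Nonempty c := hne.to_subtype
  rw [Submodule.mem_iSup_of_directed]
  · constructor
    · rintro ⟨⟨I, hI⟩, h⟩
      exact ⟨I, hI, h⟩
    · rintro ⟨I, hI, h⟩
      exact ⟨⟨I, hI⟩, h⟩
  · rintro ⟨I, hI⟩ ⟨J, hJ⟩
    rcases hc.total hI hJ with h | h
    · exact ⟨⟨J, hJ⟩, h X i, le_rfl⟩
    · exact ⟨⟨I, hI⟩, le_rfl, h X i⟩

lemma isAdequate_sSup {c : Set (Family C)} (hc : IsChain (· ≤ ·) c) (hne : c.Nonempty)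
    (h : ∀ I ∈ c, IsAdequate C I) : IsAdequate C (sSup c) where
  le_gr X i a ha := by
    obtain ⟨I, hI, h1⟩ := (mem_sSup_chain hc hne).1 ha
    exact (h I hI).le_gr X i h1
  pull_mem f i b hb := by
    obtain ⟨I, hI, h1⟩ := (mem_sSup_chain hc hne).1 hb
    exact (mem_sSup_chain hc hne).2 ⟨I, hI, (h I hI).pull_mem f h1⟩
  push_mem f i b hb := by
    obtain ⟨I, hI, h1⟩ := (mem_sSup_chain hc hne).1 hb
    exact (mem_sSup_chain hc hne).2 ⟨I, hI, (h I hI).push_mem f h1⟩
  mul_mem {X i j a b} ha hb := by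
    obtain ⟨I, hI, h1⟩ := (mem_sSup_chain hc hne).1 ha
    exact (mem_sSup_chain hc hne).2 ⟨I, hI, (h I hI).mul_mem h1 hb⟩

/-- A multiplicative system of homogeneous classes: `S Z j z` says that `z ∈ A^j(Z)` belongs to the
system. Any two members `s`, `t` have a common successor: a member which lies in each adequate
relation containing `s × t`. -/
structure IsMult (S : ∀ Z : 𝒱.Obj, ℤ → C.A Z → Prop) : Prop where
  deg : ∀ {Z : 𝒱.Obj} {j : ℤ} {z : C.A Z}, S Z j z → C.Deg j z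
  nonempty : ∃ (Z : 𝒱.Obj) (j : ℤ) (z : C.A Z), S Z j z
  mul : ∀ {Z W : 𝒱.Obj} {i j : ℤ} {s : C.A Z} {t : C.A W}, S Z i s → S W j t →
    ∀ I : Family C, IsAdequate C I → C.ext s t ∈ I (Z.prod W) (i + j) →
      ∃ (V : 𝒱.Obj) (l : ℤ) (r : C.A V), S V l r ∧ r ∈ I V l

/-- The family `I` avoids the system `S`. -/
def Avoids (S : ∀ Z : 𝒱.Obj, ℤ → C.A Z → Prop) (I : Family C) : Prop :=
  ∀ (Z : 𝒱.Obj) (j : ℤ) (z : C.A Z), S Z j z → z ∉ I Z j

/-- An adequate relation which is maximal among those avoiding a multiplicative system is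
prime. -/
lemma isPrime_of_maximal {S : ∀ Z : 𝒱.Obj, ℤ → C.A Z → Prop} (hS : IsMult S) {P : Family C}
    (hP : Maximal (fun I => IsAdequate C I ∧ Avoids S I) P) : IsPrime C P := by
  obtain ⟨⟨hA, hav⟩, hmax⟩ := hP
  have key : ∀ {X Y : 𝒱.Obj} {i j : ℤ} {x : C.A X} {y : C.A Y}, C.Deg i x → C.Deg j y →
      C.ext x y ∈ P (X.prod Y) (i + j) → y ∉ P Y j →
      ∃ (Z : 𝒱.Obj) (l : ℤ) (s : C.A Z), S Z l s ∧ C.ext x s ∈ P (X.prod Z) (i + l) := by
    intro X Y i j x y hx hy hxy hyP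
    by_contra hcon
    push Not at hcon
    have h1 : Avoids S (Prime.colon P x i) := by
      intro Z l z hz hz'
      exact hcon Z l z hz (mem_colon.1 hz').2
    have h2 := hmax ⟨hA.colon (x := x) (i := i), h1⟩ (hA.le_colon hx)
    exact hyP (h2 Y j (mem_colon.2 ⟨hy, hxy⟩))
  refine { hA with one_notMem := ?_, prime := ?_ }
  · intro X h
    obtain ⟨Z, j, z, hz⟩ := hS.nonempty
    exact hav Z j z hz (hA.eq_top_of h (hS.deg hz))
  · intro X Y i j x y hx hy hxy
    by_contra hcon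
    push Not at hcon
    obtain ⟨hxP, hyP⟩ := hcon
    obtain ⟨Z, l, s, hs, hxs⟩ := key hx hy hxy hyP
    obtain ⟨W, n, t, ht, hst⟩ := key (hS.deg hs) hx (hA.swap_mem hxs) hxP
    obtain ⟨V, r, z, hz, hzP⟩ := hS.mul hs ht P hA hst
    exact hav V r z hz hzP

/-- An adequate relation avoiding a multiplicative system is contained in a prime one which avoids
it. -/
lemma exists_prime_avoids {S : ∀ Z : 𝒱.Obj, ℤ → C.A Z → Prop} (hS : IsMult S) {I : Family C}
    (hI : IsAdequate C I) (hav : Avoids S I) :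
    ∃ P : Family C, IsPrime C P ∧ I ≤ P ∧ Avoids S P := by
  have hz : ∀ c ⊆ {I : Family C | IsAdequate C I ∧ Avoids S I}, IsChain (· ≤ ·) c →
      ∀ y ∈ c, ∃ ub ∈ {I : Family C | IsAdequate C I ∧ Avoids S I}, ∀ z ∈ c, z ≤ ub := by
    intro c hc hchain y hy
    refine ⟨sSup c, ⟨isAdequate_sSup hchain ⟨y, hy⟩ (fun J hJ => (hc hJ).1), ?_⟩,
      fun J hJ => le_sSup hJ⟩
    intro Z j z hz hz'
    obtain ⟨J, hJ, h1⟩ := (mem_sSup_chain hchain ⟨y, hy⟩).1 hz'
    exact (hc hJ).2 Z j z hz h1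
  obtain ⟨P, hIP, hP⟩ := zorn_le_nonempty₀ {I : Family C | IsAdequate C I ∧ Avoids S I} hz I
    ⟨hI, hav⟩
  exact ⟨P, isPrime_of_maximal hS hP, hIP, hP.1.2⟩

/-- The system of the exterior powers of a class. -/
def powSys (a : C.A X) (i : ℤ) (Z : 𝒱.Obj) (j : ℤ) (z : C.A Z) : Prop :=
  ∃ m : ℕ, ∃ e : Z = powObj X m, j = (m + 1 : ℕ) * i ∧ e ▸ z = extPow C a m

omit hC in
lemma powSys_extPow (a : C.A X) (i : ℤ) (m : ℕ) :
    powSys a i (powObj X m) ((m + 1 : ℕ) * i) (extPow C a m) := ⟨m, rfl, rfl, rfl⟩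

lemma isMult_powSys {a : C.A X} {i : ℤ} (ha : C.Deg i a) : IsMult (powSys a i) where
  deg := by
    rintro Z j z ⟨m, rfl, rfl, h⟩
    have h' : z = extPow C a m := h
    rw [h']
    exact extPow_mem ha m
  nonempty := ⟨_, _, _, powSys_extPow a i 0⟩
  mul := by
    rintro Z W j l s t ⟨m, rfl, rfl, h⟩ ⟨n, rfl, rfl, h2⟩ I hI hst
    have h' : s = extPow C a m := h
    have h2' : t = extPow C a n := h2
    subst h' h2'
    obtain ⟨g, hg⟩ := exists_pull_extPow a m n
    refine ⟨_, _, _, powSys_extPow a i (m + n + 1), ?_⟩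
    rw [← hg]
    refine hI.congr ?_ (hI.pull_mem g hst)
    push_cast; ring

/-- Powers belonging to a prime relation. -/
lemma IsPrime.mem_of_extPow {P : Family C} (hP : IsPrime C P) {a : C.A X} {i : ℤ} (ha : C.Deg i a)
    (m : ℕ) (h : extPow C a m ∈ P (powObj X m) ((m + 1 : ℕ) * i)) : a ∈ P X i := by
  induction m with
  | zero =>
    refine hP.toIsAdequate.congr ?_ h
    push_cast; ring
  | succ m ih =>
    have h1 : C.ext a (extPow C a m) ∈ P (X.prod (powObj X m)) (i + (m + 1 : ℕ) * i) :=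
      hP.toIsAdequate.congr (by push_cast; ring) h
    rcases hP.prime ha (extPow_mem ha m) h1 with h2 | h2
    · exact h2
    · exact ih h2

/-- A class of codimension `i` is smash-nilpotent if and only if it belongs to all prime adequate
equivalence relations. -/
theorem smashNilpotent_iff {a : C.A X} {i : ℤ} (ha : C.Deg i a) :
    SmashNilpotent C a ↔ ∀ P : Family C, IsPrime C P → a ∈ P X i := by
  constructor
  · rintro ⟨m, hm⟩ P hP
    apply hP.mem_of_extPow ha m
    rw [hm]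
    exact Submodule.zero_mem _
  · intro h
    by_contra hcon
    have hav : Avoids (powSys a i) (fun _ _ => ⊥ : Family C) := by
      rintro Z j z ⟨m, rfl, rfl, h1⟩ h2
      have h' : z = extPow C a m := h1
      rw [h', Submodule.mem_bot] at h2
      exact hcon ⟨m, h2⟩
    obtain ⟨P, hP, -, hPa⟩ := exists_prime_avoids (isMult_powSys ha) isAdequate_bot hav
    apply hPa _ _ _ (powSys_extPow a i 0)
    refine hP.toIsAdequate.congr ?_ (h P hP)
    push_cast; ring

end chow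

end Pool.Agent.TH829.Prime
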